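import Mathlib

/-!
# MP_8e2405_al : a `K^{(2)}E`-closed subcategory that is not a 3-fold torsion-free class

The abelian category is `J ⥤ ModuleCat ℤ`, `J` the poset
`1 < 2 < 3 < 4 < 5`, `1 < c < 3`, `3 < d < 5`. The subcategory `X` consists of the diagrams `V` with
`V_c = 0`, `V_d = 0` for which `0 → V₁ → V₂ → V₄ → V₅ → 0` is exact.
-/

namespace Pool.Agent.Results.MP_8e2405_al.KernelClosedNotNFold

open CategoryTheory CategoryTheory.Limits

universe v u

section Defs

variable {A : Type u} [Category.{v} A] [Abelian A]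

/-- `F` is a torsion-free class of the (extension-closed) subcategory `E` of the abelian category
`A`: a full isomorphism-closed subcategory of `E`, closed under conflations of `E` and under
admissible subobjects of `E`. -/
structure IsTorsionFreeClassOf (E F : ObjectProperty A) : Prop where
  le : F ≤ E
  iso : F.IsClosedUnderIsomorphisms
  ext : ∀ S : ShortComplex A, S.ShortExact → E S.X₁ → E S.X₂ → E S.X₃ →
    F S.X₁ → F S.X₃ → F S.X₂
  sub : ∀ S : ShortComplex A, S.ShortExact → E S.X₁ → E S.X₂ → E S.X₃ → F S.X₂ → F S.X₁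

/-- `X` is an `n`-fold torsion-free class of `A`. -/
inductive IsNFold : ℕ → ObjectProperty A → Prop
  | zero : IsNFold 0 ⊤
  | succ {n : ℕ} {E F : ObjectProperty A} :
      IsNFold n E → IsTorsionFreeClassOf E F → IsNFold (n + 1) F

/-- `X` is `K^{(n-1)}E`-closed: closed under isomorphisms, under extensions in `A` and under
`(n-1)`-kernels. The exact sequence `0 → M → X^0 → ⋯ → X^{n-1}` is written
`0 → E 0 → E 1 → ⋯ → E n`. -/
structure IsKEClosed (n : ℕ) (X : ObjectProperty A) : Prop where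
  iso : X.IsClosedUnderIsomorphisms
  ext : ∀ S : ShortComplex A, S.ShortExact → X S.X₁ → X S.X₃ → X S.X₂
  ker : ∀ (E : ℕ → A) (d : ∀ i, E i ⟶ E (i + 1)), Mono (d 0) →
    (∀ i, i + 1 < n → ∃ w : d i ≫ d (i + 1) = 0, (ShortComplex.mk (d i) (d (i + 1)) w).Exact) →
    (∀ i, 1 ≤ i → i ≤ n → X (E i)) → X (E 0)

end Defs

/-! ### The index category -/

/-- The elements of the index poset `J`. -/
inductive J | a1 | a2 | a3 | a4 | a5 | c | d
  deriving DecidableEq

namespace J
instance : Fintype J := ⟨{a1, a2, a3, a4, a5, c, d}, by intro x; cases x <;> decide⟩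

/-- `J` is a subposet of `ℕ × ℕ` (product order). -/
def pos : J → ℕ × ℕ
  | a1 => (0, 0) | a2 => (1, 0) | c => (0, 1) | a3 => (1, 1)
  | a4 => (2, 1) | d => (1, 2) | a5 => (2, 2)

instance : PartialOrder J := PartialOrder.lift pos (by decide)

instance (i j : J) : Decidable (i ≤ j) := inferInstanceAs (Decidable (pos i ≤ pos j))
end J

open J

/-- The abelian category. -/
abbrev Dia := J ⥤ ModuleCat.{0} ℤ

/-- The structure map `V_i → V_j`, `i ≤ j`. -/
abbrev mp (V : Dia) (i j : J) (h : i ≤ j) : V.obj i ⟶ V.obj j := V.map (homOfLE h)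

theorem mp_comp (V : Dia) {i j k : J} (h : i ≤ j) (h' : j ≤ k) (x : V.obj i) :
    mp V j k h' (mp V i j h x) = mp V i k (h.trans h') x := by
  rw [← ModuleCat.comp_apply]
  unfold mp
  rw [← V.map_comp]
  rfl

theorem nat {V W : Dia} (f : V ⟶ W) {i j : J} (h : i ≤ j) (x : V.obj i) :
    f.app j (mp V i j h x) = mp W i j h (f.app i x) := by
  rw [← ModuleCat.comp_apply, ← ModuleCat.comp_apply, f.naturality]

/-- The subcategory: `V_c = V_d = 0` and `0 → V₁ → V₂ → V₄ → V₅ → 0` exact. -/
structure Good (V : Dia) : Prop where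
  c0 : ∀ x : V.obj c, x = 0
  d0 : ∀ x : V.obj d, x = 0
  inj : ∀ x : V.obj a1, mp V a1 a2 (by decide) x = 0 → x = 0
  ex2 : ∀ x : V.obj a2, mp V a2 a4 (by decide) x = 0 → ∃ y, mp V a1 a2 (by decide) y = x
  ex4 : ∀ x : V.obj a4, mp V a4 a5 (by decide) x = 0 → ∃ y, mp V a2 a4 (by decide) y = x
  surj : ∀ x : V.obj a5, ∃ y, mp V a4 a5 (by decide) y = x

theorem m14 {V : Dia} (h0 : ∀ x : V.obj c, x = 0) (x : V.obj a1) :
    mp V a1 a4 (by decide) x = 0 := by
  rw [← mp_comp V (j := c) (by decide) (by decide), h0 (mp V a1 c _ x), map_zero]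

theorem m13 {V : Dia} (h0 : ∀ x : V.obj c, x = 0) (x : V.obj a1) :
    mp V a1 a3 (by decide) x = 0 := by
  rw [← mp_comp V (j := c) (by decide) (by decide), h0 (mp V a1 c _ x), map_zero]

theorem m25 {V : Dia} (h0 : ∀ x : V.obj d, x = 0) (x : V.obj a2) :
    mp V a2 a5 (by decide) x = 0 := by
  rw [← mp_comp V (j := d) (by decide) (by decide), h0 (mp V a2 d _ x), map_zero]

theorem m35 {V : Dia} (h0 : ∀ x : V.obj d, x = 0) (x : V.obj a3) :
    mp V a3 a5 (by decide) x = 0 := by
  rw [← mp_comp V (j := d) (by decide) (by decide), h0 (mp V a3 d _ x), map_zero]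

/-- The class `X`. -/
def X : ObjectProperty Dia := Good

theorem X_iso : X.IsClosedUnderIsomorphisms where
  of_iso {V W} e h := by
    have hinv : ∀ i (x : W.obj i), e.hom.app i (e.inv.app i x) = x := by
      intro i x
      rw [← ModuleCat.comp_apply, ← NatTrans.comp_app, e.inv_hom_id]; rfl
    have hhom : ∀ i (x : V.obj i), e.inv.app i (e.hom.app i x) = x := by
      intro i x
      rw [← ModuleCat.comp_apply, ← NatTrans.comp_app, e.hom_inv_id]; rfl
    constructor
    · intro x; rw [← hinv _ x, h.c0 (e.inv.app _ x), map_zero]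
    · intro x; rw [← hinv _ x, h.d0 (e.inv.app _ x), map_zero]
    · intro x hx
      have := h.inj (e.inv.app _ x) (by rw [← nat, hx, map_zero])
      rw [← hinv _ x, this, map_zero]
    · intro x hx
      obtain ⟨y, hy⟩ := h.ex2 (e.inv.app _ x) (by rw [← nat, hx, map_zero])
      exact ⟨e.hom.app _ y, by rw [← nat, hy, hinv]⟩
    · intro x hx
      obtain ⟨y, hy⟩ := h.ex4 (e.inv.app _ x) (by rw [← nat, hx, map_zero])
      exact ⟨e.hom.app _ y, by rw [← nat, hy, hinv]⟩
    · intro x
      obtain ⟨y, hy⟩ := h.surj (e.inv.app _ x)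
      exact ⟨e.hom.app _ y, by rw [← nat, hy, hinv]⟩

/-! ### pointwise exactness -/

theorem exact_point {S : ShortComplex Dia} (h : S.Exact) (j : J) :
    ∀ x : S.X₂.obj j, S.g.app j x = 0 → ∃ y, S.f.app j y = x := by
  have := h.map ((evaluation J (ModuleCat.{0} ℤ)).obj j)
  rw [ShortComplex.moduleCat_exact_iff] at this
  exact this

theorem mono_point {V W : Dia} (f : V ⟶ W) [Mono f] (j : J) (x : V.obj j) (h : f.app j x = 0) :
    x = 0 := by
  have : Mono (f.app j) := inferInstance
  rw [ModuleCat.mono_iff_injective] at this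
  exact this (by rw [h, map_zero])

theorem epi_point {V W : Dia} (f : V ⟶ W) [Epi f] (j : J) (y : W.obj j) :
    ∃ x, f.app j x = y := by
  have : Epi (f.app j) := inferInstance
  rw [ModuleCat.epi_iff_surjective] at this
  exact this y

theorem exact_of_point (S : ShortComplex Dia)
    (h : ∀ j, ∀ x : S.X₂.obj j, S.g.app j x = 0 → ∃ y, S.f.app j y = x) : S.Exact := by
  rw [ShortComplex.exact_iff_isZero_homology, Functor.isZero_iff]
  intro j
  have h1 : (S.map ((evaluation J (ModuleCat.{0} ℤ)).obj j)).Exact := by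
    rw [ShortComplex.moduleCat_exact_iff]
    exact h j
  rw [ShortComplex.exact_iff_isZero_homology] at h1
  exact h1.of_iso (S.mapHomologyIso ((evaluation J (ModuleCat.{0} ℤ)).obj j)).symm

theorem shortExact_of_point (S : ShortComplex Dia)
    (h1 : ∀ j, ∀ x : S.X₁.obj j, S.f.app j x = 0 → x = 0)
    (h2 : ∀ j, ∀ x : S.X₂.obj j, S.g.app j x = 0 → ∃ y, S.f.app j y = x)
    (h3 : ∀ j, ∀ y : S.X₃.obj j, ∃ x, S.g.app j x = y) : S.ShortExact := by
  have : Mono S.f := by
    have : ∀ j, Mono (S.f.app j) := by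
      intro j
      rw [ModuleCat.mono_iff_injective, injective_iff_map_eq_zero]
      exact h1 j
    exact NatTrans.mono_of_mono_app _
  have : Epi S.g := by
    have : ∀ j, Epi (S.g.app j) := by
      intro j
      rw [ModuleCat.epi_iff_surjective]
      exact h3 j
    exact NatTrans.epi_of_epi_app _
  exact ShortComplex.ShortExact.mk (exact_of_point S h2)

/-! ### `X` is closed under extensions -/

theorem X_ext (S : ShortComplex Dia) (hS : S.ShortExact) (h1 : X S.X₁) (h3 : X S.X₃) :
    X S.X₂ := by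
  have := hS.mono_f
  have := hS.epi_g
  have E := fun j => exact_point hS.exact j
  have M := fun j => mono_point S.f j
  have P := fun j => epi_point S.g j
  have hc0 : ∀ x : S.X₂.obj c, x = 0 := by
    intro x
    obtain ⟨y, rfl⟩ := E c x (h3.c0 _)
    rw [h1.c0 y, map_zero]
  have hd0 : ∀ x : S.X₂.obj d, x = 0 := by
    intro x
    obtain ⟨y, rfl⟩ := E d x (h3.d0 _)
    rw [h1.d0 y, map_zero]
  refine ⟨hc0, hd0, ?_, ?_, ?_, ?_⟩
  · intro x hx
    obtain ⟨y, rfl⟩ := E a1 x (h3.inj _ (by rw [← nat, hx, map_zero]))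
    have := M a2 (mp S.X₁ a1 a2 (by decide) y) (by rw [nat, hx])
    rw [h1.inj y this, map_zero]
  · intro x hx
    obtain ⟨y', hy'⟩ := h3.ex2 (S.g.app _ x) (by rw [← nat, hx, map_zero])
    obtain ⟨y, rfl⟩ := P a1 y'
    obtain ⟨t, ht⟩ := E a2 (x - mp S.X₂ a1 a2 (by decide) y) (by
      rw [map_sub, nat, hy', sub_self])
    have h0 : mp S.X₁ a2 a4 (by decide) t = 0 := by
      apply M a4
      rw [nat, ht, map_sub, hx, mp_comp, m14 hc0, sub_zero]
    obtain ⟨s, rfl⟩ := h1.ex2 t h0
    refine ⟨y + S.f.app a1 s, ?_⟩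
    rw [map_add, ← nat, ht]; abel
  · intro x hx
    obtain ⟨y', hy'⟩ := h3.ex4 (S.g.app _ x) (by rw [← nat, hx, map_zero])
    obtain ⟨y, rfl⟩ := P a2 y'
    obtain ⟨t, ht⟩ := E a4 (x - mp S.X₂ a2 a4 (by decide) y) (by
      rw [map_sub, nat, hy', sub_self])
    have h0 : mp S.X₁ a4 a5 (by decide) t = 0 := by
      apply M a5
      rw [nat, ht, map_sub, hx, mp_comp, m25 hd0, sub_zero]
    obtain ⟨s, rfl⟩ := h1.ex4 t h0
    refine ⟨y + S.f.app a2 s, ?_⟩
    rw [map_add, ← nat, ht]; abel
  · intro z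
    obtain ⟨w, hw⟩ := h3.surj (S.g.app _ z)
    obtain ⟨u, rfl⟩ := P a4 w
    obtain ⟨t, ht⟩ := E a5 (z - mp S.X₂ a4 a5 (by decide) u) (by
      rw [map_sub, nat, hw, sub_self])
    obtain ⟨s, rfl⟩ := h1.surj t
    refine ⟨u + S.f.app a4 s, ?_⟩
    rw [map_add, ← nat, ht]; abel

/-! ### `X` is closed under 2-kernels -/

theorem X_ker {M E1 E2 E3 : Dia} (d0 : M ⟶ E1) (d1 : E1 ⟶ E2) (d2 : E2 ⟶ E3) [Mono d0]
    (w01 : d0 ≫ d1 = 0) (w12 : d1 ≫ d2 = 0)
    (e1 : (ShortComplex.mk d0 d1 w01).Exact) (e2 : (ShortComplex.mk d1 d2 w12).Exact)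
    (h1 : X E1) (h2 : X E2) (h3 : X E3) : X M := by
  have Mo := fun j => mono_point d0 j
  have X1 : ∀ j (x : E1.obj j), d1.app j x = 0 → ∃ y, d0.app j y = x := exact_point e1
  have X2 : ∀ j (x : E2.obj j), d2.app j x = 0 → ∃ y, d1.app j y = x := exact_point e2
  have Z1 : ∀ j (x : M.obj j), d1.app j (d0.app j x) = 0 := by
    intro j x
    rw [← ModuleCat.comp_apply, ← NatTrans.comp_app, w01]; rfl
  have Z2 : ∀ j (x : E1.obj j), d2.app j (d1.app j x) = 0 := by
    intro j x
    rw [← ModuleCat.comp_apply, ← NatTrans.comp_app, w12]; rfl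
  refine ⟨fun x => Mo c x (h1.c0 _), fun x => Mo d x (h1.d0 _), ?_, ?_, ?_, ?_⟩
  · intro x hx
    exact Mo a1 x (h1.inj _ (by rw [← nat, hx, map_zero]))
  · intro x hx
    obtain ⟨y, hy⟩ := h1.ex2 (d0.app _ x) (by rw [← nat, hx, map_zero])
    have h0 : d1.app _ y = 0 := h2.inj _ (by rw [← nat, hy, Z1])
    obtain ⟨z, rfl⟩ := X1 _ y h0
    refine ⟨z, ?_⟩
    have : mp M a1 a2 (by decide) z - x = 0 := Mo _ _ (by rw [map_sub, nat, hy, sub_self])
    exact sub_eq_zero.mp this
  · intro x hx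
    obtain ⟨y, hy⟩ := h1.ex4 (d0.app _ x) (by rw [← nat, hx, map_zero])
    obtain ⟨w, hw⟩ := h2.ex2 (d1.app _ y) (by rw [← nat, hy, Z1])
    have h0 : d2.app _ w = 0 := h3.inj _ (by rw [← nat, hw, Z2])
    obtain ⟨u, rfl⟩ := X2 _ w h0
    obtain ⟨z, hz⟩ := X1 a2 (y - mp E1 a1 a2 (by decide) u) (by
      rw [map_sub, nat, hw, sub_self])
    refine ⟨z, ?_⟩
    have : mp M a2 a4 (by decide) z - x = 0 := Mo _ _ (by
      rw [map_sub, nat, hz, map_sub, hy, mp_comp, m14 h1.c0, sub_zero, sub_self])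
    exact sub_eq_zero.mp this
  · intro z
    obtain ⟨a, ha⟩ := h1.surj (d0.app _ z)
    obtain ⟨b, hb⟩ := h2.ex4 (d1.app _ a) (by rw [← nat, ha, Z1])
    obtain ⟨w, hw⟩ := h3.ex2 (d2.app _ b) (by rw [← nat, hb, Z2])
    obtain ⟨t, ht⟩ := X2 a3 (mp E2 a2 a3 (by decide) b) (by
      rw [nat, ← hw, mp_comp, m13 h3.c0])
    obtain ⟨m, hm⟩ := X1 a4 (a - mp E1 a3 a4 (by decide) t) (by
      rw [map_sub, nat, ht, mp_comp, ← hb, sub_self])
    refine ⟨m, ?_⟩
    have : mp M a4 a5 (by decide) m - z = 0 := Mo _ _ (by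
      rw [map_sub, nat, hm, map_sub, ha, mp_comp, m35 h1.d0, sub_zero, sub_self])
    exact sub_eq_zero.mp this

theorem X_KE : IsKEClosed 3 X where
  iso := X_iso
  ext := X_ext
  ker E d hm he hX := by
    obtain ⟨w01, e1⟩ := he 0 (by norm_num)
    obtain ⟨w12, e2⟩ := he 1 (by norm_num)
    exact X_ker (d 0) (d 1) (d 2) w01 w12 e1 e2 (hX 1 le_rfl (by norm_num))
      (hX 2 (by norm_num) (by norm_num)) (hX 3 (by norm_num) le_rfl)

/-! ### Interval diagrams -/

/-- Value at `j` of the interval diagram of `S`: `ℤ` if `j ∈ S`, else `0`. -/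
abbrev Val (S : J → Bool) (j : J) : Type := PLift (S j = true) → ℤ

/-- The transfer map, the identity of `ℤ` if `i ∈ S`, `j ∈ T` and zero otherwise. -/
def tr (S T : J → Bool) (i j : J) : Val S i →ₗ[ℤ] Val T j where
  toFun φ := fun _ => if h : S i = true then φ ⟨h⟩ else 0
  map_add' x y := by ext; dsimp; split <;> simp
  map_smul' r x := by ext; dsimp; split <;> simp

theorem tr_apply (S T : J → Bool) (i j : J) (φ : Val S i) (h : PLift (T j = true)) :
    tr S T i j φ h = if h : S i = true then φ ⟨h⟩ else 0 := rfl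

theorem tr_tr (S T U : J → Bool) (i j k : J) (h : U k = true → S i = true → T j = true)
    (φ : Val S i) : tr T U j k (tr S T i j φ) = tr S U i k φ := by
  ext ⟨hk⟩
  rw [tr_apply, tr_apply]
  by_cases hi : S i = true
  · rw [dif_pos (h hk hi), tr_apply]
  · rw [dif_neg hi]
    split
    · rw [tr_apply, dif_neg hi]
    · rfl

theorem tr_self (S : J → Bool) (j : J) (φ : Val S j) : tr S S j j φ = φ := by
  ext ⟨hk⟩
  rw [tr_apply, dif_pos hk]

/-- Convex subsets. -/
def Convex (S : J → Bool) : Prop :=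
  ∀ i j k : J, i ≤ j → j ≤ k → S i = true → S k = true → S j = true

instance (S : J → Bool) : Decidable (Convex S) := by unfold Convex; infer_instance

/-- The interval diagram of a convex set. -/
def I (S : J → Bool) (hS : Convex S) : Dia where
  obj j := ModuleCat.of ℤ (Val S j)
  map {i j} _ := ModuleCat.ofHom (tr S S i j)
  map_id j := by
    apply ModuleCat.hom_ext; apply LinearMap.ext; intro φ
    exact tr_self S j φ
  map_comp {i j k} f g := by
    apply ModuleCat.hom_ext; apply LinearMap.ext; intro φ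
    exact (tr_tr S S S i j k (fun h1 h2 => hS i j k (leOfHom f) (leOfHom g) h2 h1) φ).symm

/-- Transfer maps between interval diagrams. -/
def trI (S T : J → Bool) (hS : Convex S) (hT : Convex T)
    (h1 : ∀ i j : J, i ≤ j → T j = true → S i = true → S j = true)
    (h2 : ∀ i j : J, i ≤ j → T j = true → S i = true → T i = true) : I S hS ⟶ I T hT where
  app j := ModuleCat.ofHom (tr S T j j)
  naturality i j f := by
    apply ModuleCat.hom_ext; apply LinearMap.ext; intro φ
    exact (tr_tr S S T i j j (fun a b => h1 i j (leOfHom f) a b) φ).trans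
      (tr_tr S T T i i j (fun a b => h2 i j (leOfHom f) a b) φ).symm

/-- The data of a short exact sequence `0 → I S'' → I S → I S' → 0`. -/
def Cut (S'' S S' : J → Bool) : Prop :=
  (∀ j, S j = (S'' j || S' j)) ∧ (∀ j, ¬ (S'' j = true ∧ S' j = true)) ∧
    ∀ i j : J, i ≤ j → S'' i = true → S j = true → S'' j = true

instance (S'' S S' : J → Bool) : Decidable (Cut S'' S S') := by unfold Cut; infer_instance

theorem aux1 {S T : J → Bool} {j k : J} (h : S j = true → T k = true) (φ : Val S j)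
    (h0 : tr S T j k φ = 0) : φ = 0 := by
  funext ⟨hj⟩
  have := congrFun h0 ⟨h hj⟩
  rw [tr_apply, dif_pos hj] at this
  exact this

/-- Exactness at a point: if `x` is killed by a transfer map then it is in the image. -/
theorem aux2 {S T U : J → Bool} {i j k : J}
    (h : S j = true → U k = true ∨ T i = true) (x : Val S j)
    (h0 : tr S U j k x = 0) : tr T S i j (tr S T j i x) = x := by
  funext ⟨hj⟩
  rw [tr_apply]
  split
  · rw [tr_apply, dif_pos hj]
  · next hn =>
    rcases h hj with h3 | h3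
    · have := congrFun h0 ⟨h3⟩
      rw [tr_apply, dif_pos hj] at this
      exact this.symm
    · exact absurd h3 hn

theorem aux3 {S T : J → Bool} {i j : J} (h : T j = true → S i = true) (y : Val T j) :
    tr S T i j (tr T S j i y) = y := by
  funext ⟨hj⟩
  rw [tr_apply, dif_pos (h hj), tr_apply, dif_pos hj]

theorem aux0 {S T U : J → Bool} {i j k : J} (h : U k = true → S i = true → False)
    (φ : Val S i) : tr T U j k (tr S T i j φ) = 0 := by
  funext ⟨hj⟩
  rw [tr_apply]
  split
  · rw [tr_apply, dif_neg (fun hi => h hj hi)]; rfl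
  · rfl

theorem aux4 {S T : J → Bool} {i j : J} (h : S i ≠ true) (φ : Val S i) :
    tr S T i j φ = 0 := by
  funext ⟨hj⟩
  rw [tr_apply, dif_neg h]; rfl

theorem cut {S'' S S' : J → Bool} (h : Cut S'' S S') (c'' : Convex S'') (cS : Convex S)
    (c' : Convex S') : ∃ T : ShortComplex Dia, T.ShortExact ∧ T.X₁ = I S'' c'' ∧ T.X₂ = I S cS ∧
      T.X₃ = I S' c' := by
  obtain ⟨hu, hd, hup⟩ := h
  have i1 : ∀ j, S'' j = true → S j = true := fun j hj => by rw [hu, hj]; rfl
  have i2 : ∀ j, S' j = true → S j = true := fun j hj => by rw [hu, hj, Bool.or_true]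
  have i3 : ∀ j, S j = true → S'' j ≠ true → S' j = true := fun j hj hn => by
    rw [hu] at hj
    rcases (Bool.or_eq_true _ _).mp hj with h | h
    · exact absurd h hn
    · exact h
  let f : I S'' c'' ⟶ I S cS := trI S'' S c'' cS (fun i j hij a b => hup i j hij b a)
    (fun i j _ _ b => i1 i b)
  let g : I S cS ⟶ I S' c' := trI S S' cS c' (fun i j _ a _ => i2 j a)
    (fun i j hij a b => i3 i b (fun hc => hd j ⟨hup i j hij hc (i2 j a), a⟩))
  have w : f ≫ g = 0 := by
    apply NatTrans.ext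
    funext j
    apply ModuleCat.hom_ext; apply LinearMap.ext; intro φ
    exact aux0 (fun a b => hd j ⟨b, a⟩) φ
  refine ⟨ShortComplex.mk f g w, shortExact_of_point _ ?_ ?_ ?_, rfl, rfl, rfl⟩
  · intro j φ hφ
    exact aux1 (i1 j) φ hφ
  · intro j x hx
    refine ⟨tr S S'' j j x, ?_⟩
    exact aux2 (fun hj => by
      by_cases h : S'' j = true
      · exact Or.inr h
      · exact Or.inl (i3 j hj h)) x hx
  · intro j y
    exact ⟨tr S' S j j y, aux3 (i2 j) y⟩

theorem good_I {S : J → Bool} (hS : Convex S)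
    (h : S c = false ∧ S d = false ∧ (S a1 = true → S a2 = true) ∧
      (S a2 = true → S a4 = true ∨ S a1 = true) ∧ (S a4 = true → S a5 = true ∨ S a2 = true) ∧
      (S a5 = true → S a4 = true)) : X (I S hS) := by
  obtain ⟨hc, hd, h1, h2, h4, h5⟩ := h
  constructor
  · intro x; funext ⟨h⟩; rw [hc] at h; exact absurd h (by decide)
  · intro x; funext ⟨h⟩; rw [hd] at h; exact absurd h (by decide)
  · intro x hx
    exact aux1 h1 x hx
  · intro x hx
    exact ⟨tr S S a2 a1 x, aux2 h2 x hx⟩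
  · intro x hx
    exact ⟨tr S S a4 a2 x, aux2 h4 x hx⟩
  · intro x
    exact ⟨tr S S a5 a4 x, aux3 h5 x⟩

/-! ### `X` is not a 3-fold torsion-free class -/

/-- The subset `{1, 2}` of `J`. -/
abbrev s12 : J → Bool := fun j => decide (j = a1 ∨ j = a2)
/-- The subset `{1}`. -/
abbrev s1 : J → Bool := fun j => decide (j = a1)
/-- The subset `{2}`. -/
abbrev s2 : J → Bool := fun j => decide (j = a2)
/-- The subset `{3}`. -/
abbrev s3 : J → Bool := fun j => decide (j = a3)
/-- The subset `{4}`. -/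
abbrev s4 : J → Bool := fun j => decide (j = a4)
/-- The subset `{5}`. -/
abbrev s5 : J → Bool := fun j => decide (j = a5)
/-- The subset `{2, 3}`. -/
abbrev s23 : J → Bool := fun j => decide (j = a2 ∨ j = a3)
/-- The subset `{2, 3, 4}`. -/
abbrev s234 : J → Bool := fun j => decide (j = a2 ∨ j = a3 ∨ j = a4)
/-- The subset `{4, 5}`. -/
abbrev s45 : J → Bool := fun j => decide (j = a4 ∨ j = a5)

theorem X_not : ¬ IsNFold 3 X := by
  intro h
  obtain _ | @⟨_, F2, _, hF2, t3⟩ := h
  obtain _ | @⟨_, F1, _, hF1, t2⟩ := hF2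
  obtain _ | @⟨_, F0, _, hF0, t1⟩ := hF1
  cases hF0
  have c12 : Convex s12 := by decide
  have c1 : Convex s1 := by decide
  have c2 : Convex s2 := by decide
  have c3 : Convex s3 := by decide
  have c4 : Convex s4 := by decide
  have c5 : Convex s5 := by decide
  have c23 : Convex s23 := by decide
  have c234 : Convex s234 := by decide
  have c45 : Convex s45 := by decide
  have x12 : X (I s12 c12) := good_I c12 (by decide)
  have x234 : X (I s234 c234) := good_I c234 (by decide)
  have x45 : X (I s45 c45) := good_I c45 (by decide)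
  have x3 : X (I s3 c3) := good_I c3 (by decide)
  have l2 := t3.le
  have l1 := t2.le
  have f1_2 : F1 (I s2 c2) := by
    obtain ⟨T, hT, e1, e2, e3⟩ := cut (S'' := s2) (S := s12) (S' := s1) (by decide) c2 c12 c1
    have := t1.sub T hT trivial trivial trivial (by rw [e2]; exact l1 _ (l2 _ x12))
    rwa [e1] at this
  have f1_23 : F1 (I s23 c23) := by
    obtain ⟨T, hT, e1, e2, e3⟩ := cut (S'' := s3) (S := s23) (S' := s2) (by decide) c3 c23 c2
    have := t1.ext T hT trivial trivial trivial (by rw [e1]; exact l1 _ (l2 _ x3))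
      (by rw [e3]; exact f1_2)
    rwa [e2] at this
  obtain ⟨T, hT, e1, e2, e3⟩ := cut (S'' := s4) (S := s234) (S' := s23) (by decide) c4 c234 c23
  obtain ⟨T', hT', e1', e2', e3'⟩ := cut (S'' := s5) (S := s45) (S' := s4) (by decide) c5 c45 c4
  have f1_4 : F1 (I s4 c4) := by
    have := t1.sub T hT trivial trivial trivial (by rw [e2]; exact l1 _ (l2 _ x234))
    rwa [e1] at this
  have f1_5 : F1 (I s5 c5) := by
    have := t1.sub T' hT' trivial trivial trivial (by rw [e2']; exact l1 _ (l2 _ x45))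
    rwa [e1'] at this
  have f2_4 : F2 (I s4 c4) := by
    have := t2.sub T hT (by rw [e1]; exact f1_4) (by rw [e2]; exact l1 _ (l2 _ x234))
      (by rw [e3]; exact f1_23) (by rw [e2]; exact l2 _ x234)
    rwa [e1] at this
  have f2_5 : F2 (I s5 c5) := by
    have := t2.sub T' hT' (by rw [e1']; exact f1_5) (by rw [e2']; exact l1 _ (l2 _ x45))
      (by rw [e3']; exact f1_4) (by rw [e2']; exact l2 _ x45)
    rwa [e1'] at this
  have f3_5 : X (I s5 c5) := by
    have := t3.sub T' hT' (by rw [e1']; exact f2_5) (by rw [e2']; exact l2 _ x45)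
      (by rw [e3']; exact f2_4) (by rw [e2']; exact x45)
    rwa [e1'] at this
  obtain ⟨y, hy⟩ := f3_5.surj (fun _ => (1 : ℤ))
  have h0 : tr s5 s5 a4 a5 y = fun _ => (1 : ℤ) := hy
  have h1 : tr s5 s5 a4 a5 y = 0 := aux4 (by decide) y
  have h2 : (0 : Val s5 a5) = fun _ => (1 : ℤ) := h1.symm.trans h0
  have h3 : (0 : ℤ) = 1 := congrFun h2 ⟨by decide⟩
  exact absurd h3 (by decide)

/-- **There are an abelian category and a subcategory closed under extensions and 2-kernels that is
not a 3-fold torsion-free class.** -/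
theorem result : ∃ (A : Type 1) (_ : Category.{0} A) (_ : Abelian A) (X : ObjectProperty A),
    IsKEClosed 3 X ∧ ¬ IsNFold 3 X :=
  ⟨Dia, inferInstance, inferInstance, X, X_KE, X_not⟩

end Pool.Agent.Results.MP_8e2405_al.KernelClosedNotNFold
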